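import Pool.Agent.Helper75_LeoK.LeorA
import Pool.Agent.LRN.Defs

/-!
# Squad LRN, row RBP (helper3)
-/

set_option autoImplicit false

open NumberField IsDedekindDomain WithZero Module Filter Topology
open Pool.Agent.Helper85_Leo Pool.Agent.Leo3 Pool.Agent.Leo3.H93 Pool.Agent.LeoK.H59
open Pool.Agent.LeoK.H75 (zpow_sum' crd_tors crd_fund)

namespace Pool.Agent.LRN.H3

/-- (3): the relation in the base field -/
theorem rel_p {p : ℕ} [Fact p.Prime] {k : Type} [Field k] [NumberField k] (hL : LeopoldtAt k p)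
    {n : ℕ}
    (ν : Fin n → (𝓞 k)ˣ) (a : Fin n → PadicInt p) (m : ℕ → Fin n → ℤ)
    (hm : ∀ i, Tendsto (fun k => ((m k i : ℤ) : PadicInt p)) atTop (𝓝 (a i)))
    (hdiv : ∀ N : ℕ, ∀ᶠ l in atTop,
        ((p : ℕ) : 𝓞 k) ^ N ∣ (((∏ i, ν i ^ m l i : (𝓞 k)ˣ) : 𝓞 k) - 1))
    (i : Fin (Units.rank k)) : ∑ j, ((crd (ν j) i : ℤ) : PadicInt p) * a j = 0 := by
  classical
  -- the exponent
  obtain ⟨w, hw0, hw1, hw2⟩ : ∃ w : ℕ, 0 < w ∧
      (∀ u : (𝓞 k)ˣ, (((u ^ w : (𝓞 k)ˣ) : 𝓞 k) - 1) ∈ Ideal.span {((p : ℕ) : 𝓞 k)}) ∧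
      ∀ ζ : Units.torsion k, ((ζ : (𝓞 k)ˣ)) ^ w = 1 := by
    have hp0 : ((p : ℕ) : 𝓞 k) ≠ 0 := Nat.cast_ne_zero.2 (Fact.out (p := p.Prime)).ne_zero
    have hfin : Finite (𝓞 k ⧸ Ideal.span {((p : ℕ) : 𝓞 k)}) := by
      apply Ideal.finiteQuotientOfFreeOfNeBot
      rw [Ne, Ideal.span_singleton_eq_bot]
      exact hp0
    have hfin2 : Finite (𝓞 k ⧸ Ideal.span {((p : ℕ) : 𝓞 k)})ˣ := inferInstance
    refine ⟨Nat.card (𝓞 k ⧸ Ideal.span {((p : ℕ) : 𝓞 k)})ˣ * Nat.card (Units.torsion k), ?_, ?_, ?_⟩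
    · exact Nat.mul_pos Nat.card_pos Nat.card_pos
    · intro u
      rw [← Ideal.Quotient.eq]
      have h1 : (Units.map (Ideal.Quotient.mk (Ideal.span {((p : ℕ) : 𝓞 k)}) :
          𝓞 k →* 𝓞 k ⧸ Ideal.span {((p : ℕ) : 𝓞 k)})) (u ^
          (Nat.card (𝓞 k ⧸ Ideal.span {((p : ℕ) : 𝓞 k)})ˣ * Nat.card (Units.torsion k))) = 1 := by
        rw [map_pow, pow_mul, pow_card_eq_one', one_pow]
      have h2 := congrArg Units.val h1
      rw [map_one]
      exact h2
    · intro ζ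
      rw [mul_comm, pow_mul]
      have h1 : ζ ^ Nat.card (Units.torsion k) = 1 := pow_card_eq_one'
      have h2 : ((ζ : (𝓞 k)ˣ)) ^ Nat.card (Units.torsion k) = 1 := by
        rw [← Subgroup.coe_pow, h1, Subgroup.coe_one]
      rw [h2, one_pow]
  have hwz : (w : ℤ) ≠ 0 := by exact_mod_cast hw0.ne'
  have hpow : ∀ u : (𝓞 k)ˣ, u ^ w = ∏ i, (Units.fundSystem k i ^ w) ^ crd u i := by
    intro u
    obtain ⟨ζ, h1⟩ := crd_spec u
    have h2 : u ^ w = ((ζ : (𝓞 k)ˣ) * ∏ i, Units.fundSystem k i ^ crd u i) ^ w := by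
      conv_lhs => rw [h1]
    rw [h2, mul_pow, hw2, one_mul, ← Finset.prod_pow]
    refine Finset.prod_congr rfl fun i _ => ?_
    rw [← zpow_natCast, ← zpow_mul, ← zpow_natCast, ← zpow_mul, mul_comm]
  have hmain := hL (Units.rank k) (fun i => Units.fundSystem k i ^ w) ?_ ?_
    (fun i => ∑ j, ((crd (ν j) i : ℤ) : PadicInt p) * a j)
    (fun l i => ∑ j, crd (ν j) i * m l j) ?_ ?_
  · exact congrFun hmain i
  · intro i
    exact Ideal.le_radical (hw1 _)
  · intro c hc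
    funext i
    have h1 := crd_prod (fun i => Units.fundSystem k i ^ w) c i
    rw [hc, crd_one] at h1
    have h2 : ∀ j, crd (Units.fundSystem k j ^ w) i = if i = j then (w : ℤ) else 0 := by
      intro j
      have h3 := crd_zpow (Units.fundSystem k j) (w : ℤ) i
      rw [zpow_natCast] at h3
      rw [h3, crd_fund]
      by_cases h : i = j
      · simp [h]
      · simp [h]
    simp only [h2] at h1
    rw [Finset.sum_eq_single i] at h1
    · rw [if_pos rfl] at h1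
      exact (mul_eq_zero.1 h1.symm).resolve_right hwz
    · intro j _ hj
      rw [if_neg (Ne.symm hj), mul_zero]
    · intro h
      exact absurd (Finset.mem_univ _) h
  · intro i
    have h1 : Tendsto (fun l => ∑ j, ((crd (ν j) i : ℤ) : PadicInt p) * ((m l j : ℤ) : PadicInt p))
        atTop (𝓝 (∑ j, ((crd (ν j) i : ℤ) : PadicInt p) * a j)) :=
      tendsto_finsetSum _ fun j _ => (hm j).const_mul _
    refine h1.congr fun l => ?_
    push_cast
    rfl
  · intro N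
    refine (hdiv N).mono fun l hl => ?_
    have h1 : ∏ i, (Units.fundSystem k i ^ w) ^ (∑ j, crd (ν j) i * m l j) =
        (∏ j, ν j ^ m l j) ^ w := by
      rw [← Finset.prod_pow]
      have h2 : ∀ j, (ν j ^ m l j) ^ w = ∏ i, (Units.fundSystem k i ^ w) ^ (crd (ν j) i * m l j) := by
        intro j
        rw [← zpow_natCast, ← zpow_mul, mul_comm (m l j), zpow_mul, zpow_natCast, hpow,
          ← Finset.prod_zpow]
        refine Finset.prod_congr rfl fun i _ => ?_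
        rw [← zpow_mul]
      rw [Finset.prod_congr rfl fun j _ => h2 j, Finset.prod_comm]
      refine Finset.prod_congr rfl fun i _ => ?_
      exact zpow_sum' _ _ _
    rw [h1]
    refine hl.trans ?_
    have h3 := sub_dvd_pow_sub_pow (((∏ j, ν j ^ m l j : (𝓞 k)ˣ) : 𝓞 k)) 1 w
    rw [one_pow] at h3
    rw [Units.val_pow_eq_pow_val]
    exact h3

end Pool.Agent.LRN.H3
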